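import Pool.Agent.H41.STCI.DU

/-!
# Families of disjoint curves, lines
-/

set_option autoImplicit false

namespace STCI

universe u v w

section UFD

variable {R : Type u} [CommRing R] [IsDomain R] [UniqueFactorizationMonoid R]

theorem dvd_of_relPrime {u v d f : R} (h : IsRelPrime u v) (h1 : d ∣ f * u) (h2 : d ∣ f * v) :
    d ∣ f := by
  classical
  letI := UniqueFactorizationMonoid.toGCDMonoid R
  have h3 : d ∣ gcd (f * u) (f * v) := dvd_gcd h1 h2
  have h4 : IsUnit (gcd u v) := h (gcd_dvd_left u v) (gcd_dvd_right u v)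
  have h5 : d ∣ f * gcd u v := h3.trans (gcd_mul_left' f u v).dvd
  exact (h4.dvd_mul_right).1 h5

theorem reg_of_relPrime {u v : R} (h : IsRelPrime u v) :
    ∀ a b : R, a * u = b * v → ∃ c, a = c * v ∧ b = c * u := by
  intro a b hab
  have h1 : v ∣ a := dvd_of_relPrime h ⟨b, by rw [hab, mul_comm]⟩ ⟨a, by rw [mul_comm]⟩
  obtain ⟨c, rfl⟩ := h1
  by_cases hv : v = 0
  · subst hv
    -- then `u` is a unit
    have hu : IsUnit u := h dvd_rfl (dvd_zero u)
    obtain ⟨u', rfl⟩ := hu
    exact ⟨b * (↑(u'⁻¹) : R), by simp, by simp⟩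
  · refine ⟨c, mul_comm _ _, ?_⟩
    have : v * (c * u) = v * b := by
      rw [← mul_assoc, hab, mul_comm]
    exact (mul_left_cancel₀ hv this).symm

/-- Complete intersections with the symmetrization property. -/
def Good (J : Ideal R) : Prop :=
  ∃ u v : R, J = Ideal.span {u, v} ∧ IsRelPrime u v ∧ SymProp J

theorem good_top : Good (⊤ : Ideal R) := by
  refine ⟨1, 1, ?_, isRelPrime_one_left, symProp_top⟩
  symm
  rw [Ideal.eq_top_iff_one]
  exact mem_pair_left 1 1

theorem good_inf {E : Type v} [EuclideanDomain E] (φ : R →+* E)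
    (hφ : Function.Surjective φ) {u v : R} (hk : RingHom.ker φ = Ideal.span {u, v})
    (huv : IsRelPrime u v) {I : Ideal R} (hI : Good I) (h : I ⊔ RingHom.ker φ = ⊤) :
    Good (I ⊓ RingHom.ker φ) := by
  obtain ⟨f, g, rfl, hfg, hS⟩ := hI
  obtain ⟨p, q, hpq⟩ := exists_inf_eq_span φ hφ hk f g h
  refine ⟨p, q, hpq, ?_, symProp_inf hS (symProp_ker φ hφ) h⟩
  intro d hdp hdq
  have hle : Ideal.span {p, q} ≤ Ideal.span {d} :=
    span_pair_le (Ideal.mem_span_singleton.2 hdp) (Ideal.mem_span_singleton.2 hdq)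
  have key : ∀ x ∈ Ideal.span {f, g}, ∀ y ∈ Ideal.span {u, v}, d ∣ x * y := by
    intro x hx y hy
    rw [← Ideal.mem_span_singleton]
    refine hle ?_
    rw [← hpq, hk]
    exact ⟨Ideal.mul_mem_right _ _ hx, Ideal.mul_mem_left _ _ hy⟩
  refine hfg ?_ ?_
  · exact dvd_of_relPrime huv (key _ (mem_pair_left _ _) _ (mem_pair_left _ _))
      (key _ (mem_pair_left _ _) _ (mem_pair_right _ _))
  · exact dvd_of_relPrime huv (key _ (mem_pair_right _ _) _ (mem_pair_left _ _))
      (key _ (mem_pair_right _ _) _ (mem_pair_right _ _))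

theorem good_finset {ι : Type w} (E : ι → Type v) [∀ i, EuclideanDomain (E i)]
    (φ : ∀ i, R →+* E i) (hφ : ∀ i, Function.Surjective (φ i))
    (hci : ∀ i, ∃ u v : R, RingHom.ker (φ i) = Ideal.span {u, v} ∧ IsRelPrime u v)
    (hd : Pairwise fun i j => RingHom.ker (φ i) ⊔ RingHom.ker (φ j) = ⊤) (s : Finset ι) :
    Good (⨅ i ∈ s, RingHom.ker (φ i)) := by
  classical
  induction s using Finset.induction_on with
  | empty => simpa using good_top
  | insert i s his ih =>
    rw [Finset.iInf_insert, inf_comm]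
    obtain ⟨u, v, hk, huv⟩ := hci i
    refine good_inf (φ i) (hφ i) hk huv ih ?_
    rw [sup_comm]
    exact Ideal.sup_iInf_eq_top fun j hj => hd (fun h => his (h ▸ hj))

theorem twoEq_residual_good {J : Ideal R} (hJ : Good J) {F G : R} (hF : F ∈ J) (hG : G ∈ J) :
    TwoEq ((Ideal.span {F, G} : Ideal R).colon (J : Set R)).radical := by
  obtain ⟨u, v, rfl, huv, hS⟩ := hJ
  exact twoEq_residual (reg_of_relPrime huv) hS hF hG

/-- Residuals of disjoint unions of curves with Euclidean coordinate rings. -/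
theorem twoEq_residual_family {ι : Type w} [Finite ι] (E : ι → Type v)
    [∀ i, EuclideanDomain (E i)]
    (φ : ∀ i, R →+* E i) (hφ : ∀ i, Function.Surjective (φ i))
    (hci : ∀ i, ∃ u v : R, RingHom.ker (φ i) = Ideal.span {u, v} ∧ IsRelPrime u v)
    (hd : Pairwise fun i j => RingHom.ker (φ i) ⊔ RingHom.ker (φ j) = ⊤) {F G : R}
    (hF : ∀ i, F ∈ RingHom.ker (φ i)) (hG : ∀ i, G ∈ RingHom.ker (φ i)) :
    TwoEq ((Ideal.span {F, G} : Ideal R).colon
      ((⨅ i, RingHom.ker (φ i) : Ideal R) : Set R)).radical := by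
  have := Fintype.ofFinite ι
  have h := good_finset E φ hφ hci hd Finset.univ
  simp only [Finset.mem_univ, iInf_pos] at h
  exact twoEq_residual_good h ((Submodule.mem_iInf _).2 hF) ((Submodule.mem_iInf _).2 hG)

end UFD

theorem twoEq_finset {R : Type u} [CommRing R] {ι : Type w} (E : ι → Type v)
    [∀ i, EuclideanDomain (E i)] (φ : ∀ i, R →+* E i) (hφ : ∀ i, Function.Surjective (φ i))
    (hk : ∀ i, TwoEq (RingHom.ker (φ i))) (I : Ideal R) (hI : TwoEq I) (s : Finset ι) :
    TwoEq (I ⊓ ⨅ i ∈ s, RingHom.ker (φ i)) := by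
  classical
  induction s using Finset.induction_on with
  | empty => simpa using hI
  | insert i s his ih =>
    rw [Finset.iInf_insert, inf_comm (RingHom.ker (φ i)), ← inf_assoc]
    exact twoEq_inf (φ i) (hφ i) (hk i) ih

end STCI
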