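import Pool.Agent.H41.STCI.Defs

/-!
# Adding a curve with Euclidean coordinate ring
-/

set_option autoImplicit false

namespace STCI

universe u v

variable {R : Type u} [CommRing R]

theorem mem_pair_left (a b : R) : a ∈ (Ideal.span {a, b} : Ideal R) :=
  Ideal.subset_span (by simp)

theorem mem_pair_right (a b : R) : b ∈ (Ideal.span {a, b} : Ideal R) :=
  Ideal.subset_span (by simp)

theorem span_pair_le {a b : R} {I : Ideal R} (ha : a ∈ I) (hb : b ∈ I) :
    Ideal.span {a, b} ≤ I := by
  rw [Ideal.span_le]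
  intro x hx
  rcases hx with rfl | hx
  · exact ha
  · rw [Set.mem_singleton_iff] at hx
    rw [hx]
    exact hb

/-- The identity behind the union: `g ^ (n + 1) = a u + b v`. -/
theorem radical_union (f g u v a b : R) (n : ℕ) (h : g ^ (n + 1) = a * u + b * v) :
    (Ideal.span {u * f - b * g ^ (n + 1), v * f + a * g ^ (n + 1)}).radical =
      (Ideal.span {f, g}).radical ⊓ (Ideal.span {u, v}).radical := by
  have hgn : g ^ (n + 1) ∈ (Ideal.span {f, g} : Ideal R) :=
    Ideal.pow_mem_of_mem _ (mem_pair_right f g) _ (Nat.succ_pos n)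
  have hguv : g ^ (n + 1) ∈ (Ideal.span {u, v} : Ideal R) := by
    rw [h]
    exact Ideal.add_mem _ (Ideal.mul_mem_left _ _ (mem_pair_left u v))
      (Ideal.mul_mem_left _ _ (mem_pair_right u v))
  apply le_antisymm
  · apply le_inf
    · refine Ideal.radical_mono (span_pair_le ?_ ?_)
      · exact Ideal.sub_mem _ (Ideal.mul_mem_left _ _ (mem_pair_left f g))
          (Ideal.mul_mem_left _ _ hgn)
      · exact Ideal.add_mem _ (Ideal.mul_mem_left _ _ (mem_pair_left f g))
          (Ideal.mul_mem_left _ _ hgn)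
    · refine Ideal.radical_mono (span_pair_le ?_ ?_)
      · exact Ideal.sub_mem _ (Ideal.mul_mem_right _ _ (mem_pair_left u v))
          (Ideal.mul_mem_left _ _ hguv)
      · exact Ideal.add_mem _ (Ideal.mul_mem_right _ _ (mem_pair_right u v))
          (Ideal.mul_mem_left _ _ hguv)
  · set F := u * f - b * g ^ (n + 1) with hF
    set G := v * f + a * g ^ (n + 1) with hG
    have hg2 : g ∈ (Ideal.span {F, G} : Ideal R).radical := by
      refine ⟨(n + 1) + (n + 1), ?_⟩
      have h2 : g ^ ((n + 1) + (n + 1)) = u * G - v * F := by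
        rw [pow_add]
        nth_rewrite 1 [h]
        rw [hF, hG]
        ring
      rw [h2]
      exact Ideal.sub_mem _ (Ideal.mul_mem_left _ _ (mem_pair_right F G))
        (Ideal.mul_mem_left _ _ (mem_pair_left F G))
    have hgn2 : g ^ (n + 1) ∈ (Ideal.span {F, G} : Ideal R).radical :=
      Ideal.pow_mem_of_mem _ hg2 _ (Nat.succ_pos n)
    have huf : u * f ∈ (Ideal.span {F, G} : Ideal R).radical := by
      have : u * f = F + b * g ^ (n + 1) := by rw [hF]; ring
      rw [this]
      exact Ideal.add_mem _ (Ideal.le_radical (mem_pair_left F G)) (Ideal.mul_mem_left _ _ hgn2)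
    have hvf : v * f ∈ (Ideal.span {F, G} : Ideal R).radical := by
      have : v * f = G - a * g ^ (n + 1) := by rw [hG]; ring
      rw [this]
      exact Ideal.sub_mem _ (Ideal.le_radical (mem_pair_right F G)) (Ideal.mul_mem_left _ _ hgn2)
    rw [← Ideal.radical_inf, Ideal.radical_inf, ← Ideal.radical_mul]
    refine (Ideal.radical_mono ?_).trans (le_of_eq (Ideal.radical_idem _))
    rw [Ideal.span_pair_mul_span_pair, Ideal.span_le]
    intro x hx
    simp only [Set.mem_insert_iff, Set.mem_singleton_iff] at hx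
    rcases hx with rfl | rfl | rfl | rfl
    · rw [mul_comm]; exact huf
    · rw [mul_comm]; exact hvf
    · exact Ideal.mul_mem_right _ _ hg2
    · exact Ideal.mul_mem_right _ _ hg2

/-- Row reduction over a Euclidean domain, lifted to `R`. -/
theorem exists_reduce {E : Type v} [EuclideanDomain E] (φ : R →+* E)
    (hφ : Function.Surjective φ) (a b : E) : ∀ f g : R, φ f = a → φ g = b →
    ∃ f' g' : R, Ideal.span {f', g'} = Ideal.span {f, g} ∧ φ g' = 0 := by
  refine EuclideanDomain.GCD.induction (P := fun a b => ∀ f g : R, φ f = a → φ g = b →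
    ∃ f' g' : R, Ideal.span {f', g'} = Ideal.span {f, g} ∧ φ g' = 0) a b ?_ ?_
  · intro x f g hf _
    exact ⟨g, f, by rw [Set.pair_comm], hf⟩
  · intro a b _ ih f g hf hg
    obtain ⟨r, hr⟩ := hφ (b / a)
    obtain ⟨f', g', h1, h2⟩ := ih (g - r * f) f (by
      rw [map_sub, map_mul, hr, hf, hg]
      have := EuclideanDomain.div_add_mod b a
      linear_combination -this) hf
    refine ⟨f', g', h1.trans ?_, h2⟩
    apply le_antisymm
    · exact span_pair_le (Ideal.sub_mem _ (mem_pair_right f g)
        (Ideal.mul_mem_left _ _ (mem_pair_left f g))) (mem_pair_left f g)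
    · refine span_pair_le (mem_pair_right _ _) ?_
      have h3 : (g - r * f) + r * f ∈ (Ideal.span {g - r * f, f} : Ideal R) :=
        Ideal.add_mem _ (mem_pair_left _ _) (Ideal.mul_mem_left _ _ (mem_pair_right _ _))
      rwa [sub_add_cancel] at h3

/-- A set cut out by two equations stays so if a set cut out by two equations with Euclidean
coordinate ring is added. -/
theorem twoEq_inf {E : Type v} [EuclideanDomain E] (φ : R →+* E)
    (hφ : Function.Surjective φ) (hk : TwoEq (RingHom.ker φ)) {I : Ideal R} (hI : TwoEq I) :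
    TwoEq (I ⊓ RingHom.ker φ) := by
  obtain ⟨f, g, rfl⟩ := hI
  obtain ⟨u, v, hk⟩ := hk
  obtain ⟨f', g', h1, h2⟩ := exists_reduce φ hφ (φ f) (φ g) f g rfl rfl
  rw [← h1, ← hk]
  have h3 : g' ∈ (Ideal.span {u, v} : Ideal R).radical := by
    rw [hk]
    exact h2
  obtain ⟨n, hn⟩ := h3
  obtain ⟨a, b, hab⟩ := Ideal.mem_span_pair.1 (Ideal.mul_mem_right g' _ hn)
  exact ⟨_, _, radical_union f' g' u v a b n (by rw [pow_succ, ← hab])⟩

theorem twoEq_top : TwoEq (⊤ : Ideal R) :=
  ⟨1, 1, by simp [Ideal.radical_top]⟩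

end STCI
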