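import Pool.Agent.H41.STCI.Link

/-!
# Disjoint unions of complete intersections
-/

set_option autoImplicit false

namespace STCI

universe u v

variable {R : Type u} [CommRing R]

/-- Explicit two generators of the intersection of `(f, g)` and `(u, v)` if `f = 1 + x u + y v` and
`g = a u + b v`. -/
theorem inf_eq_span (u v x y a b : R) :
    (Ideal.span {1 + x * u + y * v, a * u + b * v} : Ideal R) ⊓ Ideal.span {u, v} =
      Ideal.span {a * (x * u + y * v) ^ 2 +
        v * (1 + (1 + x * b - y * a) * (x * u + y * v)),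
        b * (x * u + y * v) ^ 2 - u * (1 + (1 + x * b - y * a) * (x * u + y * v))} := by
  set f := 1 + x * u + y * v with hf
  set g := a * u + b * v with hg
  set la := 1 + x * b - y * a with hla
  set p := a * (x * u + y * v) ^ 2 + v * (1 + la * (x * u + y * v)) with hp
  set q := b * (x * u + y * v) ^ 2 - u * (1 + la * (x * u + y * v)) with hq
  set ka := (x * u + y * v) * (a * q - b * p) + la * (v * q + u * p) with hka
  have hpm := mem_pair_left p q
  have hqm := mem_pair_right p q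
  have hkam : ka ∈ (Ideal.span {p, q} : Ideal R) := by
    rw [hka]
    exact Ideal.add_mem _ (Ideal.mul_mem_left _ _ (Ideal.sub_mem _ (Ideal.mul_mem_left _ _ hqm)
      (Ideal.mul_mem_left _ _ hpm))) (Ideal.mul_mem_left _ _ (Ideal.add_mem _
      (Ideal.mul_mem_left _ _ hqm) (Ideal.mul_mem_left _ _ hpm)))
  have e1 : g = -(a * q - b * p) + la * ka := by
    rw [hka, hp, hq, hg, hla]
    ring
  have e2 : u * f = -q - y * ka := by
    rw [hka, hp, hq, hf, hla]
    ring
  have e3 : v * f = p + x * ka := by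
    rw [hka, hp, hq, hf, hla]
    ring
  have hfm := mem_pair_left f g
  have hgm := mem_pair_right f g
  have hum := mem_pair_left u v
  have hvm := mem_pair_right u v
  have huv : x * u + y * v ∈ (Ideal.span {u, v} : Ideal R) :=
    Ideal.add_mem _ (Ideal.mul_mem_left _ _ hum) (Ideal.mul_mem_left _ _ hvm)
  apply le_antisymm
  · rintro s ⟨h1, h2⟩
    obtain ⟨c, d, rfl⟩ := Ideal.mem_span_pair.1 h1
    have hgj : g ∈ (Ideal.span {u, v} : Ideal R) :=
      Ideal.add_mem _ (Ideal.mul_mem_left _ _ hum) (Ideal.mul_mem_left _ _ hvm)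
    have h3 : c ∈ (Ideal.span {u, v} : Ideal R) := by
      have : c = (c * f + d * g) - d * g - c * (x * u + y * v) := by
        rw [hf]
        ring
      rw [this]
      exact Ideal.sub_mem _ (Ideal.sub_mem _ h2 (Ideal.mul_mem_left _ _ hgj))
        (Ideal.mul_mem_left _ _ huv)
    obtain ⟨m, n, hmn⟩ := Ideal.mem_span_pair.1 h3
    have : c * f + d * g = m * (u * f) + n * (v * f) + d * g := by
      rw [← hmn]
      ring
    rw [this, e1, e2, e3]
    refine Ideal.add_mem _ (Ideal.add_mem _ (Ideal.mul_mem_left _ _ (Ideal.sub_mem _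
      (Ideal.neg_mem_iff _ |>.2 hqm) (Ideal.mul_mem_left _ _ hkam))) (Ideal.mul_mem_left _ _
      (Ideal.add_mem _ hpm (Ideal.mul_mem_left _ _ hkam)))) (Ideal.mul_mem_left _ _
      (Ideal.add_mem _ (Ideal.neg_mem_iff _ |>.2 (Ideal.sub_mem _ (Ideal.mul_mem_left _ _ hqm)
      (Ideal.mul_mem_left _ _ hpm))) (Ideal.mul_mem_left _ _ hkam)))
  · refine span_pair_le ⟨?_, ?_⟩ ⟨?_, ?_⟩
    · have : p = (a * f - a + v * la) * f + (-x) * g := by
        rw [hp, hf, hg, hla]
        ring
      show p ∈ Ideal.span {f, g}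
      rw [this]
      exact Ideal.add_mem _ (Ideal.mul_mem_left _ _ hfm) (Ideal.mul_mem_left _ _ hgm)
    · show p ∈ Ideal.span {u, v}
      rw [hp]
      exact Ideal.add_mem _ (Ideal.mul_mem_left _ _ (Ideal.pow_mem_of_mem _ huv _ two_pos))
        (Ideal.mul_mem_right _ _ hvm)
    · have : q = (b * f - b - u * la) * f + (-y) * g := by
        rw [hq, hf, hg, hla]
        ring
      show q ∈ Ideal.span {f, g}
      rw [this]
      exact Ideal.add_mem _ (Ideal.mul_mem_left _ _ hfm) (Ideal.mul_mem_left _ _ hgm)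
    · show q ∈ Ideal.span {u, v}
      rw [hq]
      exact Ideal.sub_mem _ (Ideal.mul_mem_left _ _ (Ideal.pow_mem_of_mem _ huv _ two_pos))
        (Ideal.mul_mem_right _ _ hum)

/-- The intersection of comaximal complete intersections, one of them with Euclidean quotient. -/
theorem exists_inf_eq_span {E : Type v} [EuclideanDomain E] (φ : R →+* E)
    (hφ : Function.Surjective φ) {u v : R} (hk : RingHom.ker φ = Ideal.span {u, v})
    (f g : R) (hfg : Ideal.span {f, g} ⊔ RingHom.ker φ = ⊤) :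
    ∃ p q : R, Ideal.span {f, g} ⊓ RingHom.ker φ = Ideal.span {p, q} := by
  obtain ⟨f₁, g₁, h1, h2⟩ := exists_reduce φ hφ (φ f) (φ g) f g rfl rfl
  rw [← h1] at hfg ⊢
  -- the image of f₁ is a unit
  obtain ⟨s, hs, t, ht, hst⟩ := Submodule.mem_sup.1 ((Ideal.eq_top_iff_one _).1 hfg)
  obtain ⟨c, d, hcd⟩ := Ideal.mem_span_pair.1 hs
  have hu : φ c * φ f₁ = 1 := by
    have := congrArg φ hst
    rw [map_add, ← hcd, map_add, map_mul, map_mul, h2, mul_zero, add_zero,
      (RingHom.mem_ker).1 ht, add_zero, map_one] at this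
    exact this
  -- new generators
  set g₂ := g₁ + c * f₁ with hg₂
  set f₂ := f₁ - f₁ * g₂ with hf₂
  have hspan : Ideal.span {g₂, f₂} = (Ideal.span {f₁, g₁} : Ideal R) := by
    apply le_antisymm
    · have k1 : g₂ ∈ (Ideal.span {f₁, g₁} : Ideal R) :=
        Ideal.add_mem _ (mem_pair_right _ _) (Ideal.mul_mem_left _ _ (mem_pair_left _ _))
      exact span_pair_le k1 (Ideal.sub_mem _ (mem_pair_left _ _) (Ideal.mul_mem_left _ _ k1))
    · have k1 : f₁ ∈ (Ideal.span {g₂, f₂} : Ideal R) := by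
        have h3 : f₂ + f₁ * g₂ ∈ (Ideal.span {g₂, f₂} : Ideal R) :=
          Ideal.add_mem _ (mem_pair_right _ _) (Ideal.mul_mem_left _ _ (mem_pair_left _ _))
        have h4 : f₂ + f₁ * g₂ = f₁ := by rw [hf₂]; ring
        rwa [h4] at h3
      refine span_pair_le k1 ?_
      have : g₁ = g₂ - c * f₁ := by rw [hg₂]; ring
      rw [this]
      exact Ideal.sub_mem _ (mem_pair_left _ _) (Ideal.mul_mem_left _ _ k1)
  have hg₂1 : φ g₂ = 1 := by
    rw [hg₂, map_add, map_mul, h2, hu, zero_add]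
  have hf₂0 : φ f₂ = 0 := by
    rw [hf₂, map_sub, map_mul, hg₂1, mul_one, sub_self]
  have hk1 : g₂ - 1 ∈ Ideal.span {u, v} := by
    rw [← hk, RingHom.mem_ker, map_sub, hg₂1, map_one, sub_self]
  have hk2 : f₂ ∈ Ideal.span {u, v} := by
    rw [← hk, RingHom.mem_ker, hf₂0]
  obtain ⟨x, y, hxy⟩ := Ideal.mem_span_pair.1 hk1
  obtain ⟨a, b, hab⟩ := Ideal.mem_span_pair.1 hk2
  have hg₂' : g₂ = 1 + x * u + y * v := by
    linear_combination -hxy
  rw [← hspan, hk, hg₂', ← hab]
  exact ⟨_, _, inf_eq_span u v x y a b⟩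

end STCI
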