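import Mathlib

/-!
# Ideals which are the radical of an ideal with two generators
-/

set_option autoImplicit false

namespace STCI

open MvPolynomial

universe u v

/-- The ideal `I` is the radical of an ideal generated by two elements. -/
def TwoEq {R : Type u} [CommRing R] (I : Ideal R) : Prop :=
  ∃ f g : R, (Ideal.span {f, g}).radical = I

/-- The ideal of the line `{a + t b}` in affine three-space over `k`: the kernel of the homomorphism
`k[x₀, x₁, x₂] → k[t]`, `xᵢ ↦ aᵢ + bᵢ t`. -/
noncomputable def lineIdeal {k : Type u} [Field k] (a b : Fin 3 → k) :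
    Ideal (MvPolynomial (Fin 3) k) :=
  RingHom.ker (aeval (fun i => Polynomial.C (a i) + Polynomial.C (b i) * Polynomial.X) :
    MvPolynomial (Fin 3) k →ₐ[k] Polynomial k)

end STCI
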