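import Pool.Agent.H41.STCI.Fam

/-!
# Lines in affine three-space
-/

set_option autoImplicit false

namespace STCI

open MvPolynomial

universe u

variable {k : Type u} [Field k]

/-- The restriction to the line. -/
noncomputable def lphi (a b : Fin 3 → k) : MvPolynomial (Fin 3) k →ₐ[k] Polynomial k :=
  aeval (fun i => Polynomial.C (a i) + Polynomial.C (b i) * Polynomial.X)

theorem lineIdeal_eq (a b : Fin 3 → k) : lineIdeal a b = RingHom.ker (lphi a b) := rfl

/-- The parameter. -/
noncomputable def lt (a b : Fin 3 → k) (i : Fin 3) : MvPolynomial (Fin 3) k :=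
  C (b i)⁻¹ * (X i - C (a i))

/-- The linear equations. -/
noncomputable def le (a b : Fin 3 → k) (i j : Fin 3) : MvPolynomial (Fin 3) k :=
  X j - C (a j) - C (b j) * lt a b i

theorem lphi_X (a b : Fin 3 → k) (j : Fin 3) :
    lphi a b (X j) = Polynomial.C (a j) + Polynomial.C (b j) * Polynomial.X := by
  unfold lphi
  rw [aeval_X]

theorem lphi_C (a b : Fin 3 → k) (c : k) : lphi a b (C c) = Polynomial.C c := by
  unfold lphi
  rw [aeval_C]
  rfl

theorem lphi_lt {a b : Fin 3 → k} {i : Fin 3} (hi : b i ≠ 0) :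
    lphi a b (lt a b i) = Polynomial.X := by
  unfold lt
  rw [map_mul, map_sub, lphi_X, lphi_C, lphi_C, add_sub_cancel_left, ← mul_assoc,
    ← Polynomial.C_mul, inv_mul_cancel₀ hi, Polynomial.C_1, one_mul]

theorem lphi_surjective {a b : Fin 3 → k} {i : Fin 3} (hi : b i ≠ 0) :
    Function.Surjective (lphi a b) := by
  intro p
  refine ⟨Polynomial.aeval (lt a b i) p, ?_⟩
  rw [← Polynomial.aeval_algHom_apply, lphi_lt hi, Polynomial.aeval_X_left_apply]

theorem lphi_le {a b : Fin 3 → k} {i : Fin 3} (hi : b i ≠ 0) (j : Fin 3) :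
    lphi a b (le a b i j) = 0 := by
  unfold le
  rw [map_sub, map_sub, map_mul, lphi_lt hi, lphi_X, lphi_C, lphi_C]
  ring

theorem le_self {a b : Fin 3 → k} {i : Fin 3} (hi : b i ≠ 0) : le a b i i = 0 := by
  unfold le lt
  rw [← mul_assoc, ← C_mul, mul_inv_cancel₀ hi, C_1, one_mul, sub_self]

theorem fin3 (i j : Fin 3) : j = i ∨ j = i.succAbove 0 ∨ j = i.succAbove 1 := by
  revert i j
  decide

theorem ker_lphi {a b : Fin 3 → k} {i : Fin 3} (hi : b i ≠ 0) :
    RingHom.ker (lphi a b) = Ideal.span {le a b i (i.succAbove 0), le a b i (i.succAbove 1)} := by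
  set J := (Ideal.span {le a b i (i.succAbove 0), le a b i (i.succAbove 1)} :
    Ideal (MvPolynomial (Fin 3) k)) with hJ
  apply le_antisymm
  · intro p hp
    rw [RingHom.mem_ker] at hp
    have h1 : ((Ideal.Quotient.mkₐ k J).comp (Polynomial.aeval (lt a b i))).comp (lphi a b) =
        Ideal.Quotient.mkₐ k J := by
      apply MvPolynomial.algHom_ext
      intro j
      rw [AlgHom.comp_apply, AlgHom.comp_apply, lphi_X, map_add, map_mul, Polynomial.aeval_C,
        Polynomial.aeval_C, Polynomial.aeval_X]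
      rw [← sub_eq_zero, ← map_sub, Ideal.Quotient.mkₐ_eq_mk, Ideal.Quotient.eq_zero_iff_mem]
      have h2 : (algebraMap k (MvPolynomial (Fin 3) k)) (a j) +
          (algebraMap k (MvPolynomial (Fin 3) k)) (b j) * lt a b i - X j = - le a b i j := by
        unfold le
        rw [MvPolynomial.algebraMap_eq]
        ring
      rw [h2]
      refine J.neg_mem ?_
      rcases fin3 i j with h | h | h
      · rw [h, le_self hi]
        exact J.zero_mem
      · rw [h]
        exact mem_pair_left _ _
      · rw [h]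
        exact mem_pair_right _ _
    have h3 := DFunLike.congr_fun h1 p
    rw [AlgHom.comp_apply, hp, map_zero, Ideal.Quotient.mkₐ_eq_mk] at h3
    exact Ideal.Quotient.eq_zero_iff_mem.1 h3.symm
  · exact span_pair_le (lphi_le hi _) (lphi_le hi _)

/-- Elimination of one variable. -/
noncomputable def lth (a b : Fin 3 → k) (i j : Fin 3) :
    MvPolynomial (Fin 3) k →ₐ[k] MvPolynomial (Fin 3) k :=
  aeval (fun l => if l = j then C (a j) + C (b j) * lt a b i else X l)

theorem sub_lth_mem (a b : Fin 3 → k) (i j : Fin 3) (p : MvPolynomial (Fin 3) k) :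
    p - lth a b i j p ∈ Ideal.span {le a b i j} := by
  set J := (Ideal.span {le a b i j} : Ideal (MvPolynomial (Fin 3) k)) with hJ
  have h1 : (Ideal.Quotient.mkₐ k J).comp (lth a b i j) = Ideal.Quotient.mkₐ k J := by
    apply MvPolynomial.algHom_ext
    intro l
    rw [AlgHom.comp_apply]
    unfold lth
    rw [aeval_X]
    by_cases hl : l = j
    · rw [if_pos hl, ← sub_eq_zero, ← map_sub, Ideal.Quotient.mkₐ_eq_mk,
        Ideal.Quotient.eq_zero_iff_mem, hl]
      have h2 : C (a j) + C (b j) * lt a b i - X j = - le a b i j := by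
        unfold le
        ring
      rw [h2]
      exact J.neg_mem (Ideal.mem_span_singleton_self _)
    · rw [if_neg hl]
  have h3 := DFunLike.congr_fun h1 p
  rw [AlgHom.comp_apply, Ideal.Quotient.mkₐ_eq_mk, eq_comm, Ideal.Quotient.eq] at h3
  exact h3

theorem le_ne_zero (a b : Fin 3 → k) {i j : Fin 3} (h : i ≠ j) : le a b i j ≠ 0 := by
  intro h0
  have h1 : MvPolynomial.eval (fun l => if l = j then a j + 1 else a l) (le a b i j) = 1 := by
    unfold le lt
    simp [h]
  rw [h0, map_zero] at h1
  exact zero_ne_one h1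

theorem relPrime_le (a b : Fin 3 → k) {i j l : Fin 3} (hij : i ≠ j) (hil : i ≠ l)
    (hjl : j ≠ l) : IsRelPrime (le a b i j) (le a b i l) := by
  intro d hdj hdl
  obtain ⟨e, he⟩ := hdj
  obtain ⟨e', he'⟩ := hdl
  have t1 : lth a b i j (le a b i j) = 0 := by
    unfold lth le lt
    simp [hij]
  have t2 : lth a b i j (le a b i l) = le a b i l := by
    unfold lth le lt
    simp [hij, hjl.symm]
  have hd : lth a b i j d ≠ 0 := by
    intro h
    apply le_ne_zero a b hil
    rw [← t2, he', map_mul, h, zero_mul]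
  have hez : lth a b i j e = 0 := by
    have := t1
    rw [he, map_mul] at this
    exact (mul_eq_zero.1 this).resolve_left hd
  have hem : e ∈ Ideal.span {le a b i j} := by
    have := sub_lth_mem a b i j e
    rwa [hez, sub_zero] at this
  obtain ⟨e'', rfl⟩ := Ideal.mem_span_singleton.1 hem
  have h3 : le a b i j * (d * e'') = le a b i j * 1 := by
    rw [mul_one]
    nth_rewrite 2 [he]
    ring
  exact IsUnit.of_mul_eq_one _ (mul_left_cancel₀ (le_ne_zero a b hij) h3)

theorem line_ci (a b : Fin 3 → k) (hb : b ≠ 0) : ∃ u v : MvPolynomial (Fin 3) k,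
    lineIdeal a b = Ideal.span {u, v} ∧ IsRelPrime u v := by
  obtain ⟨i, hi⟩ := Function.ne_iff.1 hb
  refine ⟨_, _, (lineIdeal_eq a b).trans (ker_lphi hi), relPrime_le a b ?_ ?_ ?_⟩
  · exact (Fin.succAbove_ne i 0).symm
  · exact (Fin.succAbove_ne i 1).symm
  · intro h
    exact absurd (Fin.succAbove_right_injective h) (by decide)

theorem line_isPrime (a b : Fin 3 → k) : (lineIdeal a b).IsPrime := RingHom.ker_isPrime _

theorem line_twoEq (a b : Fin 3 → k) (hb : b ≠ 0) : TwoEq (lineIdeal a b) := by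
  obtain ⟨u, v, h, _⟩ := line_ci a b hb
  refine ⟨u, v, ?_⟩
  rw [← h]
  exact (line_isPrime a b).isRadical.radical

end STCI
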