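import Pool.Agent.H41.STCI.Sym

/-!
# Residuals of curves with Euclidean coordinate ring
-/

set_option autoImplicit false

namespace STCI

universe u v

variable {R : Type u} [CommRing R]

/-- Every two by two matrix can be made symmetric modulo `J` by elementary column operations. -/
def SymProp (J : Ideal R) : Prop :=
  ∀ S : Matrix (Fin 2) (Fin 2) R, ∃ l : List (Bool × R),
    (S * prodEl l) 0 1 - (S * prodEl l) 1 0 ∈ J

theorem symProp_top : SymProp (⊤ : Ideal R) := fun _ => ⟨[], trivial⟩

theorem symProp_ker {E : Type v} [EuclideanDomain E] (φ : R →+* E)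
    (hφ : Function.Surjective φ) : SymProp (RingHom.ker φ) := by
  intro S
  obtain ⟨l, hl⟩ := exists_symm (S.map φ)
  have hs : Function.Surjective (List.map (Prod.map (id : Bool → Bool) φ)) :=
    List.map_surjective_iff.2 (Function.Surjective.prodMap Function.surjective_id hφ)
  obtain ⟨l', rfl⟩ := hs l
  refine ⟨l', ?_⟩
  rw [← map_prodEl, ← Matrix.map_mul] at hl
  rw [RingHom.mem_ker, map_sub]
  have h1 := congrFun (congrFun hl 0) 1
  rw [Matrix.transpose_apply, Matrix.map_apply, Matrix.map_apply] at h1
  rw [← h1, sub_self]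

theorem symProp_inf {J₁ J₂ : Ideal R} (h₁ : SymProp J₁) (h₂ : SymProp J₂) (h : J₁ ⊔ J₂ = ⊤) :
    SymProp (J₁ ⊓ J₂) := by
  intro S
  obtain ⟨e₁, he₁, e₂, he₂, he⟩ := Submodule.mem_sup.1 ((Ideal.eq_top_iff_one _).1 h)
  obtain ⟨l₁, hl₁⟩ := h₁ S
  obtain ⟨l₂, hl₂⟩ := h₂ S
  have key : ∀ (J : Ideal R) (l : List (Bool × R)), (S * prodEl l) 0 1 - (S * prodEl l) 1 0 ∈ J ↔
      (S.map (Ideal.Quotient.mk J) * prodEl (l.map (Prod.map id (Ideal.Quotient.mk J)))) 0 1 =
        (S.map (Ideal.Quotient.mk J) * prodEl (l.map (Prod.map id (Ideal.Quotient.mk J)))) 1 0 := by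
    intro J l
    rw [← map_prodEl, ← Matrix.map_mul, Matrix.map_apply, Matrix.map_apply, Ideal.Quotient.eq]
  have hq : ∀ (J : Ideal R) (e : R) (l : List (Bool × R)), e - 1 ∈ J →
      (l.map (Prod.map id (fun a => e * a))).map (Prod.map (id : Bool → Bool)
        (Ideal.Quotient.mk J)) = l.map (Prod.map id (Ideal.Quotient.mk J)) := by
    intro J e l hJ
    rw [List.map_map]
    refine List.map_congr_left fun x _ => ?_
    have : Ideal.Quotient.mk J e = 1 := by
      rw [← map_one (Ideal.Quotient.mk J)]
      exact (Ideal.Quotient.eq).2 hJ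
    refine Prod.ext rfl ?_
    show Ideal.Quotient.mk J (e * x.2) = Ideal.Quotient.mk J x.2
    rw [map_mul, this, one_mul]
  have hz : ∀ (J : Ideal R) (e : R) (l : List (Bool × R)), e ∈ J →
      prodEl ((l.map (Prod.map id (fun a => e * a))).map (Prod.map (id : Bool → Bool)
        (Ideal.Quotient.mk J))) = 1 := by
    intro J e l hJ
    have h0 : Ideal.Quotient.mk J e = 0 := Ideal.Quotient.eq_zero_iff_mem.2 hJ
    induction l with
    | nil => rfl
    | cons x l ih =>
      rw [List.map_cons, List.map_cons, prodEl_cons, ih, mul_one]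
      have : (Prod.map (id : Bool → Bool) (Ideal.Quotient.mk J)
          (Prod.map id (fun a => e * a) x)).2 = 0 := by
        simp [h0]
      rw [this]
      cases (Prod.map (id : Bool → Bool) (Ideal.Quotient.mk J)
          (Prod.map id (fun a => e * a) x)).1 <;>
        ext i j <;> fin_cases i <;> fin_cases j <;> simp [el]
  refine ⟨l₁.map (Prod.map id (fun a => e₂ * a)) ++ l₂.map (Prod.map id (fun a => e₁ * a)),
    ?_, ?_⟩
  · show _ ∈ J₁
    rw [key, List.map_append, prodEl_append, hz J₁ e₁ l₂ he₁, mul_one, hq J₁ e₂ l₁, ← key]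
    · exact hl₁
    · have : e₂ - 1 = - e₁ := by rw [← he]; ring
      rw [this]
      exact J₁.neg_mem he₁
  · show _ ∈ J₂
    rw [key, List.map_append, prodEl_append, hz J₂ e₂ l₁ he₂, one_mul, hq J₂ e₁ l₂, ← key]
    · exact hl₂
    · have : e₁ - 1 = - e₂ := by rw [← he]; ring
      rw [this]
      exact J₂.neg_mem he₂

theorem span_triple_le {a b c : R} {I : Ideal R} (ha : a ∈ I) (hb : b ∈ I) (hc : c ∈ I) :
    Ideal.span {a, b, c} ≤ I := by
  rw [Ideal.span_le]
  intro x hx
  simp only [Set.mem_insert_iff, Set.mem_singleton_iff] at hx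
  rcases hx with rfl | rfl | rfl
  · exact ha
  · exact hb
  · exact hc

theorem mem_triple (a b c : R) : a ∈ (Ideal.span {a, b, c} : Ideal R) ∧
    b ∈ (Ideal.span {a, b, c} : Ideal R) ∧ c ∈ (Ideal.span {a, b, c} : Ideal R) :=
  ⟨Ideal.subset_span (by simp), Ideal.subset_span (by simp), Ideal.subset_span (by simp)⟩

/-- The residual, up to radical, is the ideal of the two equations and the determinant. -/
theorem radical_colon {u v : R} (hreg : ∀ a b : R, a * u = b * v → ∃ c, a = c * v ∧ b = c * u)
    (p q r s : R) :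
    ((Ideal.span {p * u + q * v, r * u + s * v} : Ideal R).colon
      ((Ideal.span {u, v} : Ideal R) : Set R)).radical =
      (Ideal.span {p * u + q * v, r * u + s * v, p * s - q * r} : Ideal R).radical := by
  obtain ⟨hF, hG, hD⟩ := mem_triple (p * u + q * v) (r * u + s * v) (p * s - q * r)
  apply le_antisymm
  · refine (Ideal.radical_mono ?_).trans (le_of_eq (Ideal.radical_idem _))
    intro t ht
    rw [Submodule.mem_colon] at ht
    obtain ⟨x, y, hxy⟩ := Ideal.mem_span_pair.1 (ht u (mem_pair_left u v))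
    obtain ⟨z, w, hzw⟩ := Ideal.mem_span_pair.1 (ht v (mem_pair_right u v))
    rw [smul_eq_mul] at hxy hzw
    obtain ⟨c, hc1, hc2⟩ := hreg (t - (x * p + y * r)) (x * q + y * s) (by
      linear_combination -hxy)
    obtain ⟨d, hd1, hd2⟩ := hreg (z * p + w * r) (t - (z * q + w * s)) (by
      linear_combination hzw)
    have ht1 : t * u ∈ (Ideal.span {p * u + q * v, r * u + s * v, p * s - q * r} : Ideal R) := by
      rw [← hxy]
      exact Ideal.add_mem _ (Ideal.mul_mem_left _ _ hF) (Ideal.mul_mem_left _ _ hG)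
    have ht2 : t * v ∈ (Ideal.span {p * u + q * v, r * u + s * v, p * s - q * r} : Ideal R) := by
      rw [← hzw]
      exact Ideal.add_mem _ (Ideal.mul_mem_left _ _ hF) (Ideal.mul_mem_left _ _ hG)
    refine ⟨2, ?_⟩
    have e : t ^ 2 = (x * w - y * z) * (p * s - q * r) + c * (t * v) + d * (t * u) := by
      have h1 : (t - c * v) * (t - d * u) - (c * u) * (d * v) =
          (x * w - y * z) * (p * s - q * r) := by
        have a1 : t - c * v = x * p + y * r := by linear_combination hc1
        have a2 : t - d * u = z * q + w * s := by linear_combination hd2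
        rw [a1, a2, ← hc2, ← hd1]
        ring
      linear_combination h1
    rw [e]
    exact Ideal.add_mem _ (Ideal.add_mem _ (Ideal.mul_mem_left _ _ hD)
      (Ideal.mul_mem_left _ _ ht2)) (Ideal.mul_mem_left _ _ ht1)
  · refine Ideal.radical_mono (span_triple_le ?_ ?_ ?_)
    · rw [Submodule.mem_colon]
      intro x _
      rw [smul_eq_mul]
      exact Ideal.mul_mem_right _ _ (mem_pair_left _ _)
    · rw [Submodule.mem_colon]
      intro x _
      rw [smul_eq_mul]
      exact Ideal.mul_mem_right _ _ (mem_pair_right _ _)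
    · rw [Submodule.mem_colon]
      intro x hx
      obtain ⟨a, b, rfl⟩ := Ideal.mem_span_pair.1 hx
      rw [smul_eq_mul, Ideal.mem_span_pair]
      exact ⟨a * s - b * r, b * p - a * q, by ring⟩

/-- Three minors of a two by three matrix with a symmetric block. -/
theorem radical_symm (al be ga u v : R) :
    (Ideal.span {al * ga - be ^ 2, al * u ^ 2 + 2 * be * u * v + ga * v ^ 2} :
      Ideal R).radical =
      (Ideal.span {al * u + be * v, be * u + ga * v, al * ga - be ^ 2} : Ideal R).radical := by
  apply le_antisymm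
  · obtain ⟨h1, h2, h3⟩ := mem_triple (al * u + be * v) (be * u + ga * v) (al * ga - be ^ 2)
    refine Ideal.radical_mono (span_pair_le h3 ?_)
    have : al * u ^ 2 + 2 * be * u * v + ga * v ^ 2 =
        u * (al * u + be * v) + v * (be * u + ga * v) := by ring
    rw [this]
    exact Ideal.add_mem _ (Ideal.mul_mem_left _ _ h1) (Ideal.mul_mem_left _ _ h2)
  · refine (Ideal.radical_mono ?_).trans (le_of_eq (Ideal.radical_idem _))
    have hD := mem_pair_left (al * ga - be ^ 2) (al * u ^ 2 + 2 * be * u * v + ga * v ^ 2)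
    have hP := mem_pair_right (al * ga - be ^ 2) (al * u ^ 2 + 2 * be * u * v + ga * v ^ 2)
    refine span_triple_le ⟨2, ?_⟩ ⟨2, ?_⟩ (Ideal.le_radical hD)
    · have : (al * u + be * v) ^ 2 = al * (al * u ^ 2 + 2 * be * u * v + ga * v ^ 2) -
          v ^ 2 * (al * ga - be ^ 2) := by ring
      rw [this]
      exact Ideal.sub_mem _ (Ideal.mul_mem_left _ _ hP) (Ideal.mul_mem_left _ _ hD)
    · have : (be * u + ga * v) ^ 2 = ga * (al * u ^ 2 + 2 * be * u * v + ga * v ^ 2) -
          u ^ 2 * (al * ga - be ^ 2) := by ring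
      rw [this]
      exact Ideal.sub_mem _ (Ideal.mul_mem_left _ _ hP) (Ideal.mul_mem_left _ _ hD)

theorem twoEq_minors {u v : R} (hS : SymProp (Ideal.span {u, v} : Ideal R)) (p q r s : R) :
    TwoEq (Ideal.span {p * u + q * v, r * u + s * v, p * s - q * r} : Ideal R).radical := by
  obtain ⟨l, hl⟩ := hS !![p, r; q, s]
  obtain ⟨c, d, hcd⟩ := Ideal.mem_span_pair.1 hl
  have hdet := det_prodEl l
  rw [Matrix.det_fin_two] at hdet
  simp only [Matrix.mul_apply, Fin.sum_univ_two, Matrix.of_apply, Matrix.cons_val', 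
    Matrix.cons_val_zero, Matrix.cons_val_one, Matrix.cons_val_fin_one] at hcd
  set w11 := prodEl l 0 0 with hw11
  set w12 := prodEl l 0 1 with hw12
  set w21 := prodEl l 1 0 with hw21
  set w22 := prodEl l 1 1 with hw22
  -- the symmetric block
  set al := p * w11 + r * w21 - v * c with hal
  set be := p * w12 + r * w22 - v * d with hbe
  set ga := q * w12 + s * w22 + u * d with hga
  have hbe' : be = q * w11 + s * w21 + u * c := by
    rw [hbe]
    linear_combination -hcd
  have m1 : al * u + be * v = w11 * (p * u + q * v) + w21 * (r * u + s * v) := by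
    rw [hal, hbe']
    ring
  have m2 : be * u + ga * v = w12 * (p * u + q * v) + w22 * (r * u + s * v) := by
    rw [hbe, hga]
    ring
  have m3 : al * ga - be ^ 2 = (p * s - q * r) + d * (al * u + be * v) -
      c * (be * u + ga * v) := by
    have e1 : al * ga - be * (q * w11 + s * w21 + u * c) =
        (p * s - q * r) * (w11 * w22 - w12 * w21) +
        d * (w11 * (p * u + q * v) + w21 * (r * u + s * v)) -
        c * (w12 * (p * u + q * v) + w22 * (r * u + s * v)) := by
      rw [hal, hbe, hga]
      ring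
    rw [m1, m2]
    linear_combination e1 - be * hbe' + (p * s - q * r) * hdet
  refine ⟨_, _, (radical_symm al be ga u v).trans ?_⟩
  congr 1
  apply le_antisymm
  · obtain ⟨h1, h2, h3⟩ := mem_triple (p * u + q * v) (r * u + s * v) (p * s - q * r)
    have k1 : al * u + be * v ∈
        (Ideal.span {p * u + q * v, r * u + s * v, p * s - q * r} : Ideal R) := by
      rw [m1]
      exact Ideal.add_mem _ (Ideal.mul_mem_left _ _ h1) (Ideal.mul_mem_left _ _ h2)
    have k2 : be * u + ga * v ∈
        (Ideal.span {p * u + q * v, r * u + s * v, p * s - q * r} : Ideal R) := by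
      rw [m2]
      exact Ideal.add_mem _ (Ideal.mul_mem_left _ _ h1) (Ideal.mul_mem_left _ _ h2)
    refine span_triple_le k1 k2 ?_
    rw [m3]
    exact Ideal.sub_mem _ (Ideal.add_mem _ h3 (Ideal.mul_mem_left _ _ k1))
      (Ideal.mul_mem_left _ _ k2)
  · obtain ⟨h1, h2, h3⟩ := mem_triple (al * u + be * v) (be * u + ga * v) (al * ga - be ^ 2)
    refine span_triple_le ?_ ?_ ?_
    · have : p * u + q * v = w22 * (al * u + be * v) - w21 * (be * u + ga * v) := by
        rw [m1, m2]
        linear_combination -(p * u + q * v) * hdet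
      rw [this]
      exact Ideal.sub_mem _ (Ideal.mul_mem_left _ _ h1) (Ideal.mul_mem_left _ _ h2)
    · have : r * u + s * v = w11 * (be * u + ga * v) - w12 * (al * u + be * v) := by
        rw [m1, m2]
        linear_combination -(r * u + s * v) * hdet
      rw [this]
      exact Ideal.sub_mem _ (Ideal.mul_mem_left _ _ h2) (Ideal.mul_mem_left _ _ h1)
    · have : p * s - q * r = (al * ga - be ^ 2) - d * (al * u + be * v) +
          c * (be * u + ga * v) := by
        linear_combination -m3
      rw [this]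
      exact Ideal.add_mem _ (Ideal.sub_mem _ h3 (Ideal.mul_mem_left _ _ h1))
        (Ideal.mul_mem_left _ _ h2)

/-- The residual of a curve with the symmetrization property is cut out by two equations. -/
theorem twoEq_residual {u v : R} (hreg : ∀ a b : R, a * u = b * v → ∃ c, a = c * v ∧ b = c * u)
    (hS : SymProp (Ideal.span {u, v} : Ideal R)) {F G : R} (hF : F ∈ Ideal.span {u, v})
    (hG : G ∈ Ideal.span {u, v}) :
    TwoEq ((Ideal.span {F, G} : Ideal R).colon
      ((Ideal.span {u, v} : Ideal R) : Set R)).radical := by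
  obtain ⟨p, q, rfl⟩ := Ideal.mem_span_pair.1 hF
  obtain ⟨r, s, rfl⟩ := Ideal.mem_span_pair.1 hG
  rw [radical_colon hreg]
  exact twoEq_minors hS p q r s

end STCI
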