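import Pool.Agent.H41.STCI.Add

/-!
# Symmetrising two by two matrices by products of elementary matrices
-/

set_option autoImplicit false

namespace STCI

universe u v

section El

variable {R : Type u} [CommRing R]

/-- Elementary matrices. -/
def el (t : Bool) (a : R) : Matrix (Fin 2) (Fin 2) R :=
  if t then !![1, a; 0, 1] else !![1, 0; a, 1]

/-- Products of elementary matrices. -/
def prodEl (l : List (Bool × R)) : Matrix (Fin 2) (Fin 2) R :=
  (l.map fun x => el x.1 x.2).prod

theorem prodEl_nil : prodEl ([] : List (Bool × R)) = 1 := rfl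

theorem prodEl_cons (x : Bool × R) (l : List (Bool × R)) :
    prodEl (x :: l) = el x.1 x.2 * prodEl l := by
  unfold prodEl
  rw [List.map_cons, List.prod_cons]

theorem prodEl_append (l m : List (Bool × R)) : prodEl (l ++ m) = prodEl l * prodEl m := by
  unfold prodEl
  rw [List.map_append, List.prod_append]

theorem det_el (t : Bool) (a : R) : (el t a).det = 1 := by
  cases t <;> simp [el, Matrix.det_fin_two]

theorem det_prodEl (l : List (Bool × R)) : (prodEl l).det = 1 := by
  induction l with
  | nil => rw [prodEl_nil, Matrix.det_one]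
  | cons x l ih => rw [prodEl_cons, Matrix.det_mul, ih, det_el, one_mul]

theorem el_mul_neg (t : Bool) (a : R) : el t a * el t (-a) = 1 := by
  cases t <;> ext i j <;> fin_cases i <;> fin_cases j <;> simp [el, Matrix.mul_apply]

theorem el_transpose (t : Bool) (a : R) : (el t a).transpose = el (!t) a := by
  cases t <;> ext i j <;> fin_cases i <;> fin_cases j <;> simp [el]

theorem map_el {S : Type v} [CommRing S] (φ : R →+* S) (t : Bool) (a : R) :
    (el t a).map φ = el t (φ a) := by
  cases t <;> ext i j <;> fin_cases i <;> fin_cases j <;> simp [el]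

theorem map_prodEl {S : Type v} [CommRing S] (φ : R →+* S) (l : List (Bool × R)) :
    (prodEl l).map φ = prodEl (l.map (Prod.map id φ)) := by
  induction l with
  | nil =>
    rw [prodEl_nil, List.map_nil, prodEl_nil]
    exact Matrix.map_one _ (map_zero φ) (map_one φ)
  | cons x l ih =>
    rw [prodEl_cons, List.map_cons, prodEl_cons, Matrix.map_mul, ih, map_el]
    rfl

end El

section Euclid

variable {E : Type u} [EuclideanDomain E]

/-- Reduction of a two by two matrix over a Euclidean domain to diagonal form. -/
theorem elem_induction (Q : E → E → E → E → Prop) (hdiag : ∀ a d, Q a 0 0 d)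
    (hc : ∀ a b c d x, Q a (b + x * a) c (d + x * c) → Q a b c d)
    (hc' : ∀ a b c d x, Q (a + x * b) b (c + x * d) d → Q a b c d)
    (hr : ∀ a b c d x, Q a b (c + x * a) (d + x * b) → Q a b c d)
    (hr' : ∀ a b c d x, Q (a + x * c) (b + x * d) c d → Q a b c d) :
    ∀ a b c d, Q a b c d := by
  have sc : ∀ a b c d, Q b (-a) d (-c) → Q a b c d := fun a b c d h => by
    apply hc' a b c d 1
    apply hc _ _ _ _ (-1)
    apply hc' _ _ _ _ 1
    convert h using 1 <;> ring
  have sr : ∀ a b c d, Q c d (-a) (-b) → Q a b c d := fun a b c d h => by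
    apply hr' a b c d 1
    apply hr _ _ _ _ (-1)
    apply hr' _ _ _ _ 1
    convert h using 1 <;> ring
  have main : ∀ a, a ≠ 0 → ∀ b c d, Q a b c d := by
    intro a
    refine EuclideanDomain.r_wellFounded.induction
      (C := fun a => a ≠ 0 → ∀ b c d, Q a b c d) a ?_
    intro a ih ha b c d
    have hb := EuclideanDomain.div_add_mod b a
    have hcc := EuclideanDomain.div_add_mod c a
    apply hc a b c d (-(b / a))
    have e1 : b + -(b / a) * a = b % a := by linear_combination -hb
    rw [e1]
    by_cases hba : b % a = 0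
    · rw [hba]
      apply hr _ _ _ _ (-(c / a))
      have e2 : c + -(c / a) * a = c % a := by linear_combination -hcc
      rw [e2, mul_zero, add_zero]
      by_cases hca : c % a = 0
      · rw [hca]
        exact hdiag _ _
      · exact sr _ _ _ _ (ih _ (EuclideanDomain.mod_lt c ha) hca _ _ _)
    · exact sc _ _ _ _ (ih _ (EuclideanDomain.mod_lt b ha) hba _ _ _)
  intro a b c d
  by_cases ha : a = 0
  · by_cases hb : b = 0
    · by_cases hcz : c = 0
      · rw [hb, hcz]
        exact hdiag _ _
      · exact sr _ _ _ _ (main c hcz _ _ _)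
    · exact sc _ _ _ _ (main b hb _ _ _)
  · exact main a ha _ _ _

theorem symm_conj {R : Type v} [CommRing R] (A Y : Matrix (Fin 2) (Fin 2) R) (hY : Y.IsSymm) :
    (A * (Y * A.transpose)).IsSymm := by
  unfold Matrix.IsSymm at hY ⊢
  rw [Matrix.transpose_mul, Matrix.transpose_mul, Matrix.transpose_transpose, hY, mul_assoc]

theorem exists_symm (S : Matrix (Fin 2) (Fin 2) E) :
    ∃ l : List (Bool × E), (S * prodEl l).IsSymm := by
  have key := elem_induction (E := E)
    (fun a b c d => ∃ l : List (Bool × E), (!![a, b; c, d] * prodEl l).IsSymm) ?_ ?_ ?_ ?_ ?_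
  · obtain ⟨l, hl⟩ := key (S 0 0) (S 0 1) (S 1 0) (S 1 1)
    refine ⟨l, ?_⟩
    rwa [← Matrix.eta_fin_two S] at hl
  · intro a d
    refine ⟨[], ?_⟩
    rw [prodEl_nil, mul_one]
    ext i j
    fin_cases i <;> fin_cases j <;> simp
  · rintro a b c d x ⟨l, hl⟩
    refine ⟨(true, x) :: l, ?_⟩
    rw [prodEl_cons, ← mul_assoc]
    have : (!![a, b; c, d] : Matrix (Fin 2) (Fin 2) E) * el true x =
        !![a, b + x * a; c, d + x * c] := by
      ext i j
      fin_cases i <;> fin_cases j <;> simp [el, Matrix.mul_apply] <;> ring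
    rw [this]
    exact hl
  · rintro a b c d x ⟨l, hl⟩
    refine ⟨(false, x) :: l, ?_⟩
    rw [prodEl_cons, ← mul_assoc]
    have : (!![a, b; c, d] : Matrix (Fin 2) (Fin 2) E) * el false x =
        !![a + x * b, b; c + x * d, d] := by
      ext i j
      fin_cases i <;> fin_cases j <;> simp [el, Matrix.mul_apply] <;> ring
    rw [this]
    exact hl
  · rintro a b c d x ⟨l, hl⟩
    refine ⟨l ++ [(true, -x)], ?_⟩
    have h1 : (!![a, b; c, d] : Matrix (Fin 2) (Fin 2) E) =
        el false (-x) * !![a, b; c + x * a, d + x * b] := by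
      ext i j
      fin_cases i <;> fin_cases j <;> simp [el, Matrix.mul_apply]
    have h2 : prodEl [((true : Bool), -x)] = (el false (-x)).transpose := by
      rw [prodEl_cons, prodEl_nil, mul_one, el_transpose]
      rfl
    rw [prodEl_append, h2, h1, mul_assoc, ← mul_assoc _ (prodEl l)]
    exact symm_conj _ _ hl
  · rintro a b c d x ⟨l, hl⟩
    refine ⟨l ++ [(false, -x)], ?_⟩
    have h1 : (!![a, b; c, d] : Matrix (Fin 2) (Fin 2) E) =
        el true (-x) * !![a + x * c, b + x * d; c, d] := by
      ext i j
      fin_cases i <;> fin_cases j <;> simp [el, Matrix.mul_apply]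
    have h2 : prodEl [((false : Bool), -x)] = (el true (-x)).transpose := by
      rw [prodEl_cons, prodEl_nil, mul_one, el_transpose]
      rfl
    rw [prodEl_append, h2, h1, mul_assoc, ← mul_assoc _ (prodEl l)]
    exact symm_conj _ _ hl

end Euclid

end STCI
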